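import Pool.Agent.Helper204.SR.P_F1
import Pool.Agent.Helper204.SR.P_F2
import Pool.Agent.Helper204.SR.P_F3
import Pool.Agent.Helper204.SR.P_F4
import Pool.Agent.Helper204.SR.P_interval_cases
import Pool.Agent.Helper204.SR.P_rat_conf
import Pool.Agent.Helper204.SR.P_weyl_rev

open MvPolynomial Finset

namespace Pool.Agent.Results.MP_0f3876_co.ExplicitCriterion

open SR

/-- The `N × N` determinant whose first `N - k` rows are `binom(e_j, i) a ^ (e_j - i)`, `i = 0, …, N - k - 1`, and whose
last `k` rows are `binom(e_j, i) b ^ (e_j - i)`, `i = 0, …, k - 1`, where `e_0 < e_1 < ⋯ < e_{N-1}` are the numbers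
`l_p + N - p` (`1 ≤ p ≤ N`) in increasing order. It is a polynomial in `a`, `b` with integer coefficients. -/
noncomputable def confluent {N : ℕ} (a b : ℝ) (k : ℕ) (l : Fin N → ℕ) : ℝ :=
  Matrix.det (Matrix.of fun i j : Fin N =>
    if (i : ℕ) + k < N then
      ((l j.rev + (j : ℕ)).choose (i : ℕ) : ℝ) * a ^ (l j.rev + (j : ℕ) - (i : ℕ))
    else
      ((l j.rev + (j : ℕ)).choose ((i : ℕ) + k - N) : ℝ) *
        b ^ (l j.rev + (j : ℕ) - ((i : ℕ) + k - N)))

/-- The positive integer `∏_{i < j} (l_i - l_j + j - i)`. -/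
noncomputable def weyl {N : ℕ} (l : Fin N → ℕ) : ℝ :=
  ∏ i : Fin N, ∏ j ∈ Finset.Ioi i, ((l i : ℝ) - l j + ((j : ℕ) - (i : ℕ) : ℝ))

/-- The explicit criterion, for `I` an interval of positive length in `(0, ∞)` containing `1`:
* `I` bounded and bounded away from `0`, `a = inf I`, `b = sup I`: for `k = 0, …, N` the polynomial inequality
  `confluent a b k l * weyl m ≥ confluent a b k m * weyl l`;
* `I = (0, 1]`: `-l` weakly majorizes `-m`;
* `I = [1, ∞)`: `l` weakly majorizes `m`;
* every other interval: `l` majorizes `m`. -/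
def ExplicitCriterion {N : ℕ} (l m : Fin N → ℕ) (I : Set ℝ) : Prop :=
  ((0 < sInf I ∧ BddAbove I) ∧ ∀ k ≤ N,
      confluent (sInf I) (sSup I) k l * weyl m ≥ confluent (sInf I) (sSup I) k m * weyl l) ∨
    (I = Set.Ioc 0 1 ∧ WeaklyMajorizes (fun i => -(l i : ℝ)) (fun i => -(m i : ℝ))) ∨
    (I = Set.Ici 1 ∧ WeaklyMajorizes (fun i => (l i : ℝ)) (fun i => (m i : ℝ))) ∨
    (¬ (0 < sInf I ∧ BddAbove I) ∧ I ≠ Set.Ioc 0 1 ∧ I ≠ Set.Ici 1 ∧
      Majorizes (fun i => (l i : ℝ)) (fun i => (m i : ℝ)))

/-- For all `N`, all non-increasing `N`-tuples `l`, `m` of nonnegative (in particular: positive) integers and every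
interval `I ⊆ (0, ∞)` of positive length with `1 ∈ I`: `s_l / s_m` is minimized at the all-ones point on `I ^ N` if and
only if `ExplicitCriterion l m I` holds. The first part records that `schur r` is the Schur polynomial. -/
theorem result (N : ℕ) (l m : Fin N → ℕ) (hl : Antitone l) (hm : Antitone m)
    (I : Set ℝ) (hI : I.OrdConnected) (hpos : I ⊆ Set.Ioi 0) (h1 : (1 : ℝ) ∈ I)
    (hlen : I.Nontrivial) :
    (∀ r : Fin N → ℕ, Antitone r → (schur r * vandermonde N = alternant r ∧
      (∀ P : MvPolynomial (Fin N) ℝ, P * vandermonde N = alternant r → P = schur r) ∧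
      ∀ x : Fin N → ℝ, (∀ i, 0 < x i) → 0 < eval x (schur r))) ∧
    (MinimizedAtOne l m I ↔ ExplicitCriterion l m I) := by
  refine ⟨fun r hr => ⟨(schur_eq r hr).2.1, (schur_eq r hr).2.2, fun x hx => ?_⟩, ?_⟩
  · rw [(schur_eq r hr).1]
    exact sp_pos N (expo r) (expo_strict r hr) x hx
  · unfold ExplicitCriterion
    by_cases hb : 0 < sInf I ∧ BddAbove I
    · have hne1 : I ≠ Set.Ioc 0 1 := by
        rintro rfl
        have := hb.1
        rw [csInf_Ioc (by norm_num : (0 : ℝ) < 1)] at this
        exact lt_irrefl _ this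
      have hne2 : I ≠ Set.Ici 1 := by
        rintro rfl
        exact not_bddAbove_Ici (1 : ℝ) hb.2
      have hab := (interval_bdd I hI hpos h1 hlen hb.2).1
      have h6 : (∀ k ≤ N, ratio l m (corner (sInf I) (sSup I) k) ≥ ratio l m (fun _ => 1)) ↔
          ∀ k ≤ N, confluent (sInf I) (sSup I) k l * weyl m ≥
            confluent (sInf I) (sSup I) k m * weyl l := by
        refine forall_congr' fun k => forall_congr' fun hk => ?_
        have h7 := rat_conf N (expo l) (expo m) (expo_strict l hl) (expo_strict m hm) (sInf I)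
          (sSup I) hb.1 hab k hk
        rw [weyl_rev, weyl_rev] at h7
        have h8 := (min_iff l m hl hm I).2
        rw [ge_iff_le, h8, h8]
        exact h7
      have := (F1 l m hl hm I hI hpos h1 hlen hb.1 hb.2).1
      rw [this, h6]
      constructor
      · intro h; exact Or.inl ⟨hb, h⟩
      · rintro (⟨-, h⟩ | ⟨h, -⟩ | ⟨h, -⟩ | ⟨h, -⟩)
        · exact h
        · exact absurd h hne1
        · exact absurd h hne2
        · exact absurd hb h
    · by_cases h2 : I = Set.Ioc 0 1
      · have hne2 : I ≠ Set.Ici 1 := by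
          rw [h2]
          intro h
          have : (2 : ℝ) ∈ Set.Ioc (0 : ℝ) 1 := by rw [h]; norm_num
          norm_num at this
        have h3 := F3 l m hl hm
        rw [← h2] at h3
        rw [h3]
        constructor
        · intro h; exact Or.inr (Or.inl ⟨h2, h⟩)
        · rintro (⟨h, -⟩ | ⟨-, h⟩ | ⟨h, -⟩ | ⟨-, h, -⟩)
          · exact absurd h hb
          · exact h
          · exact absurd h hne2
          · exact absurd h2 h
      · by_cases h4 : I = Set.Ici 1
        · have h3 := F2 l m hl hm
          rw [← h4] at h3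
          rw [h3]
          constructor
          · intro h; exact Or.inr (Or.inr (Or.inl ⟨h4, h⟩))
          · rintro (⟨h, -⟩ | ⟨h, -⟩ | ⟨-, h⟩ | ⟨-, -, h, -⟩)
            · exact absurd h hb
            · exact absurd h h2
            · exact h
            · exact absurd h4 h
        · have h5 : (sInf I = 0 ∧ ∃ b ∈ I, 1 < b) ∨ (¬ BddAbove I ∧ ∃ a ∈ I, a < 1) := by
            rcases interval_cases I hI hpos h1 with h | h | h | h | h
            · exact absurd h hb
            · exact absurd h h2
            · exact absurd h h4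
            · exact Or.inl h
            · exact Or.inr h
          rw [F4 l m hl hm I hI hpos h1 h5]
          constructor
          · intro h; exact Or.inr (Or.inr (Or.inr ⟨hb, h2, h4, h⟩))
          · rintro (⟨h, -⟩ | ⟨h, -⟩ | ⟨h, -⟩ | ⟨-, -, -, h⟩)
            · exact absurd h hb
            · exact absurd h h2
            · exact absurd h h4
            · exact h

end Pool.Agent.Results.MP_0f3876_co.ExplicitCriterion
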