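import Pool.Agent.Helper204.SR.P_F1
import Pool.Agent.Helper204.SR.P_F2
import Pool.Agent.Helper204.SR.P_F3
import Pool.Agent.Helper204.SR.P_F4
import Pool.Agent.Helper204.SR.P_interval_cases

open MvPolynomial Finset

namespace Pool.Agent.Results.MP_0f3876_co.MinimumOnBox

open SR

/-- The criterion for `s_l / s_m` to be minimized at the all-ones point on `I ^ N`, `I` an interval of positive
length in `(0, ∞)` containing `1`:
* `I` bounded and bounded away from `0`, with end points `a = inf I`, `b = sup I`: the `N + 1` inequalities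
  `s_l (v) / s_m (v) ≥ s_l (1) / s_m (1)` at the points `v = (a, …, a, b, …, b)`;
* `I = (0, 1]`: `-l` weakly majorizes `-m`;
* `I = [1, ∞)`: `l` weakly majorizes `m`;
* every other interval: `l` majorizes `m`. -/
def Criterion {N : ℕ} (l m : Fin N → ℕ) (I : Set ℝ) : Prop :=
  ((0 < sInf I ∧ BddAbove I) ∧
      ∀ k ≤ N, ratio l m (corner (sInf I) (sSup I) k) ≥ ratio l m (fun _ => 1)) ∨
    (I = Set.Ioc 0 1 ∧ WeaklyMajorizes (fun i => -(l i : ℝ)) (fun i => -(m i : ℝ))) ∨
    (I = Set.Ici 1 ∧ WeaklyMajorizes (fun i => (l i : ℝ)) (fun i => (m i : ℝ))) ∨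
    (¬ (0 < sInf I ∧ BddAbove I) ∧ I ≠ Set.Ioc 0 1 ∧ I ≠ Set.Ici 1 ∧
      Majorizes (fun i => (l i : ℝ)) (fun i => (m i : ℝ)))

/-- For all `N`, all non-increasing `N`-tuples `l`, `m` of nonnegative (in particular: positive) integers and every
interval `I ⊆ (0, ∞)` of positive length with `1 ∈ I`: `s_l / s_m` is minimized at the all-ones point on `I ^ N` if and
only if `Criterion l m I` holds. The first part records that `schur l` is the Schur polynomial and is positive on
`(0, ∞) ^ N`; the last part says that for `0 < inf I < 1 < sup I < ∞` the criterion amounts to `∑ l = ∑ m` and the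
`N - 1` inequalities at the points `(1, …, 1, b/a, …, b/a)`. -/
theorem result (N : ℕ) (l m : Fin N → ℕ) (hl : Antitone l) (hm : Antitone m)
    (I : Set ℝ) (hI : I.OrdConnected) (hpos : I ⊆ Set.Ioi 0) (h1 : (1 : ℝ) ∈ I)
    (hlen : I.Nontrivial) :
    (∀ r : Fin N → ℕ, Antitone r → (schur r * vandermonde N = alternant r ∧
      (∀ P : MvPolynomial (Fin N) ℝ, P * vandermonde N = alternant r → P = schur r) ∧
      ∀ x : Fin N → ℝ, (∀ i, 0 < x i) → 0 < eval x (schur r))) ∧
    (MinimizedAtOne l m I ↔ Criterion l m I) ∧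
    (0 < sInf I → BddAbove I → sInf I < 1 → 1 < sSup I →
      (MinimizedAtOne l m I ↔ ∑ i, l i = ∑ i, m i ∧ ∀ k, 1 ≤ k → k < N →
        ratio l m (corner 1 (sSup I / sInf I) k) ≥ ratio l m (fun _ => 1))) := by
  refine ⟨fun r hr => ⟨(schur_eq r hr).2.1, (schur_eq r hr).2.2, fun x hx => ?_⟩, ?_, ?_⟩
  · rw [(schur_eq r hr).1]
    exact sp_pos N (expo r) (expo_strict r hr) x hx
  · unfold Criterion
    by_cases hb : 0 < sInf I ∧ BddAbove I
    · have hne1 : I ≠ Set.Ioc 0 1 := by
        rintro rfl
        have := hb.1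
        rw [csInf_Ioc (by norm_num : (0 : ℝ) < 1)] at this
        exact lt_irrefl _ this
      have hne2 : I ≠ Set.Ici 1 := by
        rintro rfl
        exact not_bddAbove_Ici (1 : ℝ) hb.2
      have := (F1 l m hl hm I hI hpos h1 hlen hb.1 hb.2).1
      rw [this]
      constructor
      · intro h; exact Or.inl ⟨hb, h⟩
      · rintro (⟨-, h⟩ | ⟨h, -⟩ | ⟨h, -⟩ | ⟨h, -⟩)
        · exact h
        · exact absurd h hne1
        · exact absurd h hne2
        · exact absurd hb h
    · by_cases h2 : I = Set.Ioc 0 1
      · have hne2 : I ≠ Set.Ici 1 := by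
          rw [h2]
          intro h
          have : (2 : ℝ) ∈ Set.Ioc (0 : ℝ) 1 := by rw [h]; norm_num
          norm_num at this
        have h3 := F3 l m hl hm
        rw [← h2] at h3
        rw [h3]
        constructor
        · intro h; exact Or.inr (Or.inl ⟨h2, h⟩)
        · rintro (⟨h, -⟩ | ⟨-, h⟩ | ⟨h, -⟩ | ⟨-, h, -⟩)
          · exact absurd h hb
          · exact h
          · exact absurd h hne2
          · exact absurd h2 h
      · by_cases h4 : I = Set.Ici 1
        · have h3 := F2 l m hl hm
          rw [← h4] at h3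
          rw [h3]
          constructor
          · intro h; exact Or.inr (Or.inr (Or.inl ⟨h4, h⟩))
          · rintro (⟨h, -⟩ | ⟨h, -⟩ | ⟨-, h⟩ | ⟨-, -, h, -⟩)
            · exact absurd h hb
            · exact absurd h h2
            · exact h
            · exact absurd h4 h
        · have h5 : (sInf I = 0 ∧ ∃ b ∈ I, 1 < b) ∨ (¬ BddAbove I ∧ ∃ a ∈ I, a < 1) := by
            rcases interval_cases I hI hpos h1 with h | h | h | h | h
            · exact absurd h hb
            · exact absurd h h2
            · exact absurd h h4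
            · exact Or.inl h
            · exact Or.inr h
          rw [F4 l m hl hm I hI hpos h1 h5]
          constructor
          · intro h; exact Or.inr (Or.inr (Or.inr ⟨hb, h2, h4, h⟩))
          · rintro (⟨h, -⟩ | ⟨h, -⟩ | ⟨h, -⟩ | ⟨-, -, -, h⟩)
            · exact absurd h hb
            · exact absurd h h2
            · exact absurd h h4
            · exact h
  · intro h0 hb ha1 hb1
    exact (F1 l m hl hm I hI hpos h1 hlen h0 hb).2 ha1 hb1

end Pool.Agent.Results.MP_0f3876_co.MinimumOnBox
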